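import Mathlib
import Pool.Agent.ARB.Jet

/-!
# ALT, block L3: what is used about an alternating leaf
-/

set_option autoImplicit false

namespace Pool.Agent.ALT

open Pool.Agent.ARB

/-- The facts about the jet `J` of an alternating leaf with `n` crossings and slope `p / q`,
`0 < p < q`. `-G / p²` and `-H / q²` are the variances of the two activity distributions, and
`w / (p q) - 1/2` is the difference of their means. -/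
structure LeafLe (n p q : ℕ) (J : Jet) : Prop where
  six : 6 ≤ n
  lt : p < q
  cop : Nat.Coprime p q
  jp : J.p = p
  jq : J.q = q
  quad : J.Q J.q (-J.p) = J.w ^ 2
  int : ∃ k : ℤ, (J.Om + 1) / 2 = k
  vG : -J.G * 4 ≤ (p : ℚ) ^ 2 * ((n : ℚ) - 2) ^ 2
  vH : -J.H * 4 ≤ (q : ℚ) ^ 2 * ((n : ℚ) - 2) ^ 2
  s0 : |(q : ℚ) ^ 2 * J.G - (p : ℚ) ^ 2 * J.H| ≤
    2 * (p : ℚ) * (q : ℚ) * (J.w - (p : ℚ) * q / 2) * ((n : ℚ) - 2)
  size : 3 * n ≤ p + 7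
  size4 : 4 * q ≤ n * p
  z1 : 2 * q ≤ 3 * p → 11 / 64 * ((p : ℚ) * q) + 1 / 2 ≤ (J.Om + 1) / 2
  z2 : 3 * p ≤ 2 * q → 3 / 8 * ((p : ℚ) * q) - 5 / 16 * (p : ℚ) ^ 2 + 1 / 2 ≤ (J.Om + 1) / 2
  z3 : 16 * p ≤ q → 7 * n * q ≤ 16 * p ^ 2 ∨
    (q : ℚ) ^ 2 / 8 - (p : ℚ) * q / 2 ≤ (J.Om + 1) / 2

/-- The same for all slopes: `p < q`, or `q < p` after exchanging the closures, and mirror images. -/
def Leaf (n : ℕ) (J : Jet) : Prop :=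
  ∃ p q : ℕ, LeafLe n p q J ∨ LeafLe n p q ⟨J.q, J.p, J.w, J.H, J.F, J.G⟩ ∨
    LeafLe n p q ⟨-J.p, J.q, J.w, J.G, -J.F, J.H⟩ ∨ LeafLe n p q ⟨J.q, -J.p, J.w, J.H, -J.F, J.G⟩

/-- (L2): `w~ ≥ 24` for leaves -/
def St_L2 : Prop := ∀ (n : ℕ) (J : Jet), Leaf n J → 24 ≤ (J.Om + 1) / 2

/-- (L3): the bound for a leaf and a rational tangle -/
def St_L3 : Prop := ∀ (n : ℕ) (J : Jet), Leaf n J → ∀ R : Arb, Rat R →
  (J.sum R.jet).p ^ 2 = 1 → (J.sum R.jet).E < 12 * (J.Om + 1)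

end Pool.Agent.ALT
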