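import Mathlib

/-!
# ALT, block L3: the numerical inequality

`a = n - 2`, `n` the number of crossings, slope `p / q`, `r = q / p ≥ 1`, `z = w / (p q)`.
-/

set_option autoImplicit false

namespace Pool.Agent.ALT

/-- the bound for the linear coefficient -/
def Nb (a p r z : ℚ) : ℚ :=
  2 * a * (z + (r + 1 / r - 1) / 2) + (r ^ 2 + 5) / 12 + p / (6 * r) + z * (r - 1 / r)

/-- the same for `ζ = 1 / z`, divided by `z` and `p`; `t = 1 / p`, `s` is a bound for `a / p` -/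
def Mb (s t r ζ : ℚ) : ℚ :=
  2 * s * (1 + ζ * (r + 1 / r - 1) / 2) + ζ * (t * (r ^ 2 + 5) / 12 + 1 / (6 * r)) +
    t * (r - 1 / r)

/-- the numerical inequality in the variables `s, t, r, ζ` -/
def Good (s t r ζ : ℚ) : Prop :=
  s ^ 2 / 4 * ζ + t ^ 2 * (r + 1 / r) / 2 + 23 / 88 * ζ * Mb s t r ζ ^ 2 < 23 * r

theorem Nb_eq (a p r z : ℚ) (hp : p ≠ 0) (hz : z ≠ 0) :
    Nb a p r z = z * p * Mb (a / p) (1 / p) r (1 / z) := by
  unfold Nb Mb
  field_simp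
  ring

/-- monotonicity of `Mb` -/
theorem Mb_mono (s s' t t' r ζ ζ' : ℚ) (hs0 : 0 ≤ s) (hs : s ≤ s') (ht0 : 0 ≤ t) (ht : t ≤ t')
    (hr : 1 ≤ r) (hζ0 : 0 ≤ ζ) (hζ : ζ ≤ ζ') : Mb s t r ζ ≤ Mb s' t' r ζ' := by
  unfold Mb
  have h1 : 1 / r ≤ 1 := by
    rw [div_le_one (by linarith)]
    exact hr
  have h1' : 0 < 1 / r := by positivity
  have h2 : 0 ≤ r + 1 / r - 1 := by linarith
  have h3 : 0 ≤ r - 1 / r := by linarith
  have h6 : 0 ≤ r ^ 2 + 5 := by positivity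
  have e1 : 2 * s * (1 + ζ * (r + 1 / r - 1) / 2) ≤ 2 * s' * (1 + ζ' * (r + 1 / r - 1) / 2) := by
    have e2 : ζ * (r + 1 / r - 1) ≤ ζ' * (r + 1 / r - 1) := mul_le_mul_of_nonneg_right hζ h2
    have e3 : 0 ≤ ζ * (r + 1 / r - 1) := mul_nonneg hζ0 h2
    apply mul_le_mul <;> linarith
  have e4 : ζ * (t * (r ^ 2 + 5) / 12 + 1 / (6 * r)) ≤
      ζ' * (t' * (r ^ 2 + 5) / 12 + 1 / (6 * r)) := by
    have e5 : t * (r ^ 2 + 5) ≤ t' * (r ^ 2 + 5) := mul_le_mul_of_nonneg_right ht h6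
    have e6 : 0 ≤ t * (r ^ 2 + 5) := mul_nonneg ht0 h6
    have e7 : 0 < 1 / (6 * r) := by positivity
    apply mul_le_mul <;> linarith
  have e8 : t * (r - 1 / r) ≤ t' * (r - 1 / r) := mul_le_mul_of_nonneg_right ht h3
  linarith

theorem Mb_nonneg (s t r ζ : ℚ) (hs0 : 0 ≤ s) (ht0 : 0 ≤ t) (hr : 1 ≤ r) (hζ0 : 0 ≤ ζ) :
    0 ≤ Mb s t r ζ := by
  unfold Mb
  have h1 : 1 / r ≤ 1 := by
    rw [div_le_one (by linarith)]
    exact hr
  have h1' : 0 < 1 / r := by positivity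
  have h2 : 0 ≤ r + 1 / r - 1 := by linarith
  have h3 : 0 ≤ r - 1 / r := by linarith
  have e1 : 0 ≤ ζ * (r + 1 / r - 1) := mul_nonneg hζ0 h2
  have e3 : 0 ≤ t * (r - 1 / r) := mul_nonneg ht0 h3
  have e4 : 0 ≤ 2 * s * (1 + ζ * (r + 1 / r - 1) / 2) := by
    apply mul_nonneg <;> linarith
  have e5 : 0 ≤ ζ * (t * (r ^ 2 + 5) / 12 + 1 / (6 * r)) := by positivity
  linarith

/-- a bound `Mb ≤ c` at larger arguments gives `Good` -/
theorem good_of (s s' t t' r ζ ζ' c : ℚ) (hs0 : 0 ≤ s) (hs : s ≤ s') (ht0 : 0 ≤ t) (ht : t ≤ t')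
    (hr : 1 ≤ r) (hζ0 : 0 < ζ) (hζ : ζ ≤ ζ') (hc : Mb s' t' r ζ' ≤ c)
    (h : s' ^ 2 / 4 * ζ' + t' ^ 2 * (r + 1 / r) / 2 + 23 / 88 * ζ' * c ^ 2 < 23 * r) :
    Good s t r ζ := by
  unfold Good
  have h1 := Mb_mono s s' t t' r ζ ζ' hs0 hs ht0 ht hr hζ0.le hζ
  have h2 := Mb_nonneg s t r ζ hs0 ht0 hr hζ0.le
  have h3 : Mb s t r ζ ^ 2 ≤ c ^ 2 := pow_le_pow_left₀ h2 (h1.trans hc) 2
  have h4 : s ^ 2 ≤ s' ^ 2 := pow_le_pow_left₀ hs0 hs 2
  have h5 : t ^ 2 ≤ t' ^ 2 := pow_le_pow_left₀ ht0 ht 2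
  have h6 : 0 < r + 1 / r := by positivity
  have e1 : s ^ 2 / 4 * ζ ≤ s' ^ 2 / 4 * ζ' := by
    apply mul_le_mul _ hζ hζ0.le (by positivity)
    linarith
  have e2 : t ^ 2 * (r + 1 / r) / 2 ≤ t' ^ 2 * (r + 1 / r) / 2 := by
    have := mul_le_mul_of_nonneg_right h5 h6.le
    linarith
  have e3 : 23 / 88 * ζ * Mb s t r ζ ^ 2 ≤ 23 / 88 * ζ' * c ^ 2 := by
    apply mul_le_mul _ h3 (sq_nonneg _) (by linarith)
    linarith
  linarith

/-- `1 ≤ r ≤ 12/11`, `t ≤ r - 1` -/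
theorem good_a (s t r ζ : ℚ) (hs0 : 0 ≤ s) (hs : s ≤ (1 + t) / 3) (ht0 : 0 ≤ t)
    (htr : t ≤ r - 1) (hr : r ≤ 12 / 11) (hζ0 : 0 < ζ) (hζ : ζ ≤ 64 / 11) : Good s t r ζ := by
  have hr1 : 1 ≤ r := by linarith
  obtain ⟨x, rfl⟩ : ∃ x, r = 1 + x := ⟨r - 1, by ring⟩
  have hx0 : 0 ≤ x := by linarith
  have hx1 : x ≤ 1 / 11 := by linarith
  have hinv : 1 / (1 + x) ≤ 1 - x + x ^ 2 := by
    rw [div_le_iff₀ (by linarith)]
    nlinarith [pow_nonneg hx0 3]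
  have hinv' : 1 - x ≤ 1 / (1 + x) := by
    rw [le_div_iff₀ (by linarith)]
    nlinarith
  have hx2 : x ^ 2 ≤ x / 11 := by nlinarith
  refine good_of s ((1 + x) / 3) t x (1 + x) ζ (64 / 11) (3576 / 1000 + 51 / 10 * x) hs0
    (by linarith) ht0 (by linarith) hr1 hζ0 hζ ?_ ?_
  · unfold Mb
    have h1 : 1 / (6 * (1 + x)) = 1 / 6 * (1 / (1 + x)) := by
      rw [one_div_mul_one_div]
    rw [h1]
    have e1 : 2 * ((1 + x) / 3) * (1 + 64 / 11 * (1 + x + 1 / (1 + x) - 1) / 2) ≤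
        2 * ((1 + x) / 3) * (1 + 64 / 11 * (1 + x ^ 2) / 2) := by
      apply mul_le_mul_of_nonneg_left _ (by linarith)
      linarith
    have e2 : x * (1 + x - 1 / (1 + x)) ≤ x * (2 * x) := by
      apply mul_le_mul_of_nonneg_left _ hx0
      linarith
    have hx3 : x ^ 3 ≤ x / 121 := by nlinarith
    nlinarith
  · have h1 : 1 + x + 1 / (1 + x) ≤ 3 := by nlinarith
    nlinarith

/-- `12/11 ≤ r ≤ 3/2`, `t ≤ 1/11` -/
theorem good_b (s t r ζ : ℚ) (hs0 : 0 ≤ s) (hs : s ≤ (1 + t) / 3) (ht0 : 0 ≤ t)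
    (ht : t ≤ 1 / 11) (hr0 : 12 / 11 ≤ r) (hr : r ≤ 3 / 2) (hζ0 : 0 < ζ) (hζ : ζ ≤ 64 / 11) :
    Good s t r ζ := by
  have hr1 : 1 ≤ r := by linarith
  have hri : r * (1 / r) = 1 := by
    field_simp
  have hi0 : 0 < 1 / r := by positivity
  have hi1 : 1 / r ≤ 11 / 12 := by
    rw [div_le_iff₀ (by linarith)]
    linarith
  refine good_of s (4 / 11) t (1 / 11) r ζ (64 / 11) (4037 / 1000 + 1 / 2 * (r - 12 / 11)) hs0
    (by linarith) ht0 ht hr1 hζ0 hζ ?_ ?_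
  · unfold Mb
    have h1 : 1 / (6 * r) = 1 / 6 * (1 / r) := by
      rw [one_div_mul_one_div]
    rw [h1]
    have h2 : 0 ≤ (r - 12 / 11) * (3 / 2 - r) := mul_nonneg (by linarith) (by linarith)
    have h3 : 0 ≤ 1 / r * ((r - 12 / 11) * (3 / 2 - r)) := mul_nonneg hi0.le h2
    have h4 : 1 / r * ((r - 12 / 11) * (3 / 2 - r)) = (3 / 2 + 12 / 11) - r - 18 / 11 * (1 / r) := by
      field_simp
      ring
    nlinarith
  · nlinarith

/-- `3/2 ≤ r ≤ 2`, `t ≤ 1/11` -/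
theorem good_c (s t r ζ : ℚ) (hs0 : 0 ≤ s) (hs : s ≤ (1 + t) / 3) (ht0 : 0 ≤ t)
    (ht : t ≤ 1 / 11) (hr0 : 3 / 2 ≤ r) (hr : r ≤ 2) (hζ0 : 0 < ζ) (hζ : ζ ≤ 6) :
    Good s t r ζ := by
  have hr1 : 1 ≤ r := by linarith
  have hi0 : 0 < 1 / r := by positivity
  have hi1 : 1 / r ≤ 2 / 3 := by
    rw [div_le_iff₀ (by linarith)]
    linarith
  refine good_of s (4 / 11) t (1 / 11) r ζ 6 (435 / 100 + 14 / 10 * (r - 3 / 2)) hs0
    (by linarith) ht0 ht hr1 hζ0 hζ ?_ ?_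
  · unfold Mb
    have h1 : 1 / (6 * r) = 1 / 6 * (1 / r) := by
      rw [one_div_mul_one_div]
    rw [h1]
    have h3 : 0 ≤ 1 / r * ((r - 3 / 2) * (2 - r)) :=
      mul_nonneg hi0.le (mul_nonneg (by linarith) (by linarith))
    have h4 : 1 / r * ((r - 3 / 2) * (2 - r)) = (3 / 2 + 2) - r - 3 * (1 / r) := by
      field_simp
      ring
    nlinarith
  · nlinarith

/-- `2 ≤ r ≤ 4`, `t ≤ 1/17` -/
theorem good_d (s t r ζ : ℚ) (hs0 : 0 ≤ s) (hs : s ≤ (1 + t) / 3) (ht0 : 0 ≤ t)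
    (ht : t ≤ 1 / 17) (hr0 : 2 ≤ r) (hr : r ≤ 4) (hζ0 : 0 < ζ) (hζ : ζ ≤ 32 / 7) :
    Good s t r ζ := by
  have hr1 : 1 ≤ r := by linarith
  have hi0 : 0 < 1 / r := by positivity
  have hi1 : 1 / r ≤ 1 / 2 := by
    rw [div_le_iff₀ (by linarith)]
    linarith
  refine good_of s (6 / 17) t (1 / 17) r ζ (32 / 7) (38 / 10 + 16 / 10 * (r - 2)) hs0
    (by linarith) ht0 ht hr1 hζ0 hζ ?_ ?_
  · unfold Mb
    have h1 : 1 / (6 * r) = 1 / 6 * (1 / r) := by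
      rw [one_div_mul_one_div]
    rw [h1]
    have h3 : 0 ≤ 1 / r * ((r - 2) * (4 - r)) :=
      mul_nonneg hi0.le (mul_nonneg (by linarith) (by linarith))
    have h4 : 1 / r * ((r - 2) * (4 - r)) = 6 - r - 8 * (1 / r) := by
      field_simp
      ring
    nlinarith
  · nlinarith

/-- `4 ≤ r ≤ 16`, `t ≤ 1/(12 r - 7)` -/
theorem good_e (s t r ζ : ℚ) (hs0 : 0 ≤ s) (hs : s ≤ (1 + t) / 3) (ht0 : 0 ≤ t)
    (ht : t * (12 * r - 7) ≤ 1) (hr0 : 4 ≤ r) (hr : r ≤ 16) (hζ0 : 0 < ζ)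
    (hζ : ζ ≤ 64 / 19) : Good s t r ζ := by
  have hr1 : 1 ≤ r := by linarith
  have hi0 : 0 < 1 / r := by positivity
  have hi1 : 1 / r ≤ 1 / 4 := by
    rw [div_le_iff₀ (by linarith)]
    linarith
  have ht1 : t ≤ 1 / 41 := by nlinarith
  have htr : t * r ≤ 4 / 41 := by nlinarith
  refine good_of s (14 / 41) t t r ζ (64 / 19) (48 / 10 + 12 / 10 * (r - 4)) hs0
    (by linarith) ht0 le_rfl hr1 hζ0 hζ ?_ ?_
  · unfold Mb
    have h1 : 1 / (6 * r) = 1 / 6 * (1 / r) := by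
      rw [one_div_mul_one_div]
    rw [h1]
    have h5 : t * (r ^ 2 + 5) ≤ 4 / 41 * r + 5 / 41 := by nlinarith
    have h6 : t * (r - 1 / r) ≤ t * r := by
      apply mul_le_mul_of_nonneg_left _ ht0
      linarith
    nlinarith
  · have h7 : t ^ 2 * (r + 1 / r) ≤ 1 / 100 := by
      have : t ^ 2 * (r + 1 / r) = t * (t * r + t * (1 / r)) := by ring
      rw [this]
      have h8 : t * (1 / r) ≤ 1 / 41 * (1 / 4) := by
        apply mul_le_mul ht1 hi1 hi0.le (by norm_num)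
      have h9 : t * r + t * (1 / r) ≤ 4 / 41 + 1 / 164 := by linarith
      calc t * (t * r + t * (1 / r)) ≤ 1 / 41 * (4 / 41 + 1 / 164) := by
            apply mul_le_mul ht1 h9 (by positivity) (by norm_num)
        _ ≤ 1 / 100 := by norm_num
    nlinarith

/-- `r ≥ 16`, first case -/
theorem good_f (s t r ζ : ℚ) (hs0 : 0 ≤ s) (hs : 7 * r * s ≤ 16) (ht0 : 0 ≤ t)
    (ht : 7 * t * r ^ 2 ≤ 4) (hr : 16 ≤ r) (hζ0 : 0 < ζ) (hζ : ζ ≤ 3) : Good s t r ζ := by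
  have hr1 : 1 ≤ r := by linarith
  have hi0 : 0 < 1 / r := by positivity
  have hi1 : 1 / r ≤ 1 / 16 := by
    rw [div_le_iff₀ (by linarith)]
    linarith
  have hs1 : s ≤ 16 / 7 * (1 / r) := by
    rw [mul_one_div, le_div_iff₀ (by linarith)]
    linarith
  have hs2 : s ≤ 1 / 7 := by linarith
  have hsr : s * r ≤ 16 / 7 := by linarith
  have htr : t * r ≤ 1 / 28 := by nlinarith [mul_nonneg ht0 (show (0 : ℚ) ≤ r by linarith)]
  have ht1 : t ≤ 1 / 448 := by nlinarith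
  refine good_of s s t t r ζ 3 8 hs0 le_rfl ht0 le_rfl hr1 hζ0 hζ ?_ ?_
  · unfold Mb
    have h1 : 1 / (6 * r) = 1 / 6 * (1 / r) := by
      rw [one_div_mul_one_div]
    rw [h1]
    have e1 : 2 * s * (1 + 3 * (r + 1 / r - 1) / 2) ≤ 2 * s * (1 + 3 / 2 * r) := by
      apply mul_le_mul_of_nonneg_left _ (by linarith)
      linarith
    have e2 : t * (r - 1 / r) ≤ t * r := by
      apply mul_le_mul_of_nonneg_left _ ht0
      linarith
    nlinarith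
  · have h2 : t ^ 2 * (r + 1 / r) = t * (t * r + t * (1 / r)) := by ring
    have h3 : t * (1 / r) ≤ 1 / 448 * (1 / 16) := by
      apply mul_le_mul ht1 hi1 hi0.le (by norm_num)
    have h4 : t * (t * r + t * (1 / r)) ≤ 1 / 448 * (1 / 28 + 1 / 448 * (1 / 16)) := by
      apply mul_le_mul ht1 (by linarith) (by positivity) (by norm_num)
    have h5 : s ^ 2 ≤ 1 := by nlinarith
    rw [h2]
    linarith

/-- `r ≥ 16`, second case -/
theorem good_g (s t r ζ : ℚ) (hs0 : 0 ≤ s) (hs : s ≤ (1 + t) / 3) (ht0 : 0 ≤ t)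
    (ht : t * (12 * r - 7) ≤ 1) (hr : 16 ≤ r) (hζ0 : 0 < ζ) (hζ : 3 * r * ζ ≤ 32) :
    Good s t r ζ := by
  have hr1 : 1 ≤ r := by linarith
  have hi0 : 0 < 1 / r := by positivity
  have hi1 : 1 / r ≤ 1 / 16 := by
    rw [div_le_iff₀ (by linarith)]
    linarith
  have htr : t * r ≤ 1 / 11 := by nlinarith [mul_nonneg ht0 (show (0 : ℚ) ≤ r - 16 by linarith)]
  have ht1 : t ≤ 1 / 176 := by nlinarith
  have hζ1 : ζ ≤ 2 / 3 := by nlinarith
  have hs1 : s ≤ 59 / 176 := by linarith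
  refine good_of s (59 / 176) t t r ζ ζ 5 hs0 hs1 ht0 le_rfl hr1 hζ0 le_rfl ?_ ?_
  · unfold Mb
    have h1 : 1 / (6 * r) = 1 / 6 * (1 / r) := by
      rw [one_div_mul_one_div]
    rw [h1]
    have e1 : ζ * (r + 1 / r - 1) ≤ ζ * r := by
      apply mul_le_mul_of_nonneg_left _ hζ0.le
      linarith
    have e2 : t * (r - 1 / r) ≤ t * r := by
      apply mul_le_mul_of_nonneg_left _ ht0
      linarith
    have e3 : ζ * (t * (r ^ 2 + 5) / 12 + 1 / 6 * (1 / r)) =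
        (ζ * r) * (t * r) / 12 + 5 / 12 * (ζ * t) + 1 / 6 * (ζ * (1 / r)) := by ring
    have e4 : (ζ * r) * (t * r) ≤ 32 / 3 * (1 / 11) := by
      apply mul_le_mul (by linarith) htr (by positivity) (by norm_num)
    have e5 : ζ * t ≤ 2 / 3 * (1 / 176) := mul_le_mul hζ1 ht1 ht0 (by norm_num)
    have e6 : ζ * (1 / r) ≤ 2 / 3 * (1 / 16) := mul_le_mul hζ1 hi1 hi0.le (by norm_num)
    rw [e3]
    linarith
  · have h2 : t ^ 2 * (r + 1 / r) = t * (t * r + t * (1 / r)) := by ring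
    have h3 : t * (1 / r) ≤ 1 / 176 * (1 / 16) := by
      apply mul_le_mul ht1 hi1 hi0.le (by norm_num)
    have h4 : t * (t * r + t * (1 / r)) ≤ 1 / 176 * (1 / 11 + 1 / 176 * (1 / 16)) := by
      apply mul_le_mul ht1 (by linarith) (by positivity) (by norm_num)
    rw [h2]
    linarith

/-- THE NUMERICAL INEQUALITY. -/
theorem num_ineq (a p r z : ℚ) (ha : 4 ≤ a) (hap : 3 * a ≤ p + 1) (hr : p + 1 ≤ r * p)
    (har : 4 * r ≤ a + 2) (hz1 : r ≤ 3 / 2 → 11 / 64 ≤ z)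
    (hz2 : 3 / 2 ≤ r → 3 / 8 - 5 / (16 * r) ≤ z)
    (hz3 : 16 ≤ r → 7 * (a + 2) * r ≤ 16 * p ∨ r / 8 - 1 / 2 ≤ z) :
    a ^ 2 / 4 + z * (r + 1 / r) / 2 + 23 / 88 * Nb a p r z ^ 2 / z ^ 2 <
      23 * (z * p ^ 2 * r) := by
  have hp : 11 ≤ p := by linarith
  have hp0 : 0 < p := by linarith
  have hr1 : 1 ≤ r := by
    by_contra h
    push Not at h
    nlinarith
  have hr0 : 0 < r := by linarith
  have hz2' : 3 / 2 ≤ r → 1 / 6 ≤ z := by
    intro h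
    refine le_trans ?_ (hz2 h)
    have h1 : 5 / (16 * r) ≤ 5 / 24 := by
      apply div_le_div_of_nonneg_left (by norm_num) (by norm_num)
      linarith
    linarith
  have hz0 : 0 < z := by
    rcases le_total r (3 / 2) with h | h
    · linarith [hz1 h]
    · linarith [hz2' h]
  set t := 1 / p with ht
  set s := a / p with hs
  set ζ := 1 / z with hζ
  have ht0 : 0 < t := by positivity
  have hs0 : 0 ≤ s := by positivity
  have hζ0 : 0 < ζ := by positivity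
  have htp : t * p = 1 := by rw [ht]; field_simp
  have hsp : s * p = a := by rw [hs]; field_simp
  have hζz : ζ * z = 1 := by rw [hζ]; field_simp
  have hs1 : s ≤ (1 + t) / 3 := by
    rw [hs, ht, div_le_iff₀ hp0]
    have : (1 + 1 / p) / 3 * p = (p + 1) / 3 := by field_simp
    rw [this]
    linarith
  have ht11 : t ≤ 1 / 11 := by
    rw [ht]
    exact one_div_le_one_div_of_le (by norm_num) hp
  have htr : t ≤ r - 1 := by
    have h1 : t * p ≤ (r - 1) * p := by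
      rw [htp]
      linarith
    exact le_of_mul_le_mul_right h1 hp0
  have hpr : 12 * r - 7 ≤ p := by linarith
  have htr2 : t * (12 * r - 7) ≤ 1 := by
    calc t * (12 * r - 7) ≤ t * p := mul_le_mul_of_nonneg_left hpr ht0.le
      _ = 1 := htp
  have hζle : ∀ c d : ℚ, 0 < c → 1 / c ≤ z → ζ ≤ c := by
    intro c _ hc h
    rw [hζ]
    rw [div_le_iff₀ hz0]
    rw [div_le_iff₀ hc] at h
    linarith
  have hgood : Good s t r ζ := by
    rcases le_total r (12 / 11) with h1 | h1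
    · exact good_a s t r ζ hs0 hs1 ht0.le htr h1 hζ0
        (hζle _ 0 (by norm_num) (by linarith [hz1 (by linarith)]))
    rcases le_total r (3 / 2) with h2 | h2
    · exact good_b s t r ζ hs0 hs1 ht0.le ht11 h1 h2 hζ0
        (hζle _ 0 (by norm_num) (by linarith [hz1 h2]))
    have hz2r := hz2 h2
    rcases le_total r 2 with h3 | h3
    · exact good_c s t r ζ hs0 hs1 ht0.le ht11 h2 h3 hζ0 (hζle _ 0 (by norm_num) (hz2' h2))
    have hmon : ∀ c : ℚ, 0 < c → c ≤ r → 3 / 8 - 5 / (16 * c) ≤ z := by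
      intro c hc hcr
      refine le_trans ?_ hz2r
      have : 5 / (16 * r) ≤ 5 / (16 * c) := by
        apply div_le_div_of_nonneg_left (by norm_num) (by linarith)
        linarith
      linarith
    rcases le_total r 4 with h4 | h4
    · have ht17 : t ≤ 1 / 17 := by nlinarith
      have := hmon 2 (by norm_num) h3
      exact good_d s t r ζ hs0 hs1 ht0.le ht17 h3 h4 hζ0 (hζle _ 0 (by norm_num) (by linarith))
    rcases le_total r 16 with h5 | h5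
    · have := hmon 4 (by norm_num) h4
      exact good_e s t r ζ hs0 hs1 ht0.le htr2 h4 h5 hζ0 (hζle _ 0 (by norm_num) (by linarith))
    rcases hz3 h5 with h6 | h6
    · have := hmon 16 (by norm_num) h5
      refine good_f s t r ζ hs0 ?_ ht0.le ?_ h5 hζ0 (hζle _ 0 (by norm_num) (by linarith))
      · have e1 : 7 * r * s * p ≤ 16 * p := by
          have : 7 * r * s * p = 7 * r * a := by rw [← hsp]; ring
          rw [this]
          nlinarith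
        exact le_of_mul_le_mul_right e1 hp0
      · have e1 : 7 * t * r ^ 2 * p ≤ 4 * p := by
          have : 7 * t * r ^ 2 * p = 7 * r ^ 2 * (t * p) := by ring
          rw [this, htp]
          nlinarith
        exact le_of_mul_le_mul_right e1 hp0
    · refine good_g s t r ζ hs0 hs1 ht0.le htr2 h5 hζ0 ?_
      have h7 : 3 / 32 * r ≤ z := by linarith
      calc 3 * r * ζ = 32 * ζ * (3 / 32 * r) := by ring
        _ ≤ 32 * ζ * z := mul_le_mul_of_nonneg_left h7 (by positivity)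
        _ = 32 := by rw [mul_assoc, hζz]; norm_num
  unfold Good at hgood
  have hNb := Nb_eq a p r z hp0.ne' hz0.ne'
  rw [← hs, ← ht, ← hζ] at hNb
  rw [hNb]
  have e1 : 23 / 88 * (z * p * Mb s t r ζ) ^ 2 / z ^ 2 = 23 / 88 * p ^ 2 * Mb s t r ζ ^ 2 := by
    field_simp
  have e2 : z * p ^ 2 * (s ^ 2 / 4 * ζ + t ^ 2 * (r + 1 / r) / 2 +
      23 / 88 * ζ * Mb s t r ζ ^ 2) = a ^ 2 / 4 + z * (r + 1 / r) / 2 +
        23 / 88 * p ^ 2 * Mb s t r ζ ^ 2 := by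
    have : z * p ^ 2 * (s ^ 2 / 4 * ζ + t ^ 2 * (r + 1 / r) / 2 +
        23 / 88 * ζ * Mb s t r ζ ^ 2) = (s * p) ^ 2 / 4 * (ζ * z) +
          z * (t * p) ^ 2 * (r + 1 / r) / 2 + 23 / 88 * p ^ 2 * (ζ * z) * Mb s t r ζ ^ 2 := by
      ring
    rw [this, hsp, htp, hζz]
    ring
  rw [e1, ← e2]
  have h8 : 0 < z * p ^ 2 := by positivity
  calc z * p ^ 2 * (s ^ 2 / 4 * ζ + t ^ 2 * (r + 1 / r) / 2 +
      23 / 88 * ζ * Mb s t r ζ ^ 2) < z * p ^ 2 * (23 * r) := mul_lt_mul_of_pos_left hgood h8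
    _ = 23 * (z * p ^ 2 * r) := by ring

end Pool.Agent.ALT
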