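import Mathlib
import Pool.Agent.ARB.JetT

/-!
# ALT, block L3: the second moments of rational tangles

For a rational tangle with slope `p / q`, `p, q > 0`, the numbers `-G / p²` and `-H / q²` are
variances; their difference is bounded here.
-/

set_option autoImplicit false

namespace Pool.Agent.ALT

open Pool.Agent.ARB

private theorem up_G (J : Jet) (hQ : J.Q J.q (-J.p) = J.w ^ 2) :
    J.up.G * (J.p * J.q) = J.G * (J.p * J.q + J.q ^ 2) + J.H * (J.p * J.q + J.p ^ 2) -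
      (J.w + J.p * J.q / 2) ^ 2 := by
  simp only [Jet.Q] at hQ
  simp only [Jet.up, Jet.sum, Jet.Q, Jet.cross, if_true]
  linear_combination -hQ

private theorem up_H (J : Jet) : J.up.H = J.H := by
  simp [Jet.up, Jet.sum, Jet.cross]

/-- `G` and `H` of a canonical jet are not positive -/
theorem can_GH : ∀ (n a b : ℕ), a + b ≤ n → Nat.Coprime a b →
    (can a b).G ≤ 0 ∧ (can a b).H ≤ 0 := by
  intro n
  induction n with
  | zero =>
    intro a b h1 _
    have ha : a = 0 := by omega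
    rw [ha, can_zero]
    norm_num [Jet.zero]
  | succ n ih =>
    intro a b h1 h2
    rcases Nat.eq_zero_or_pos a with rfl | ha
    · rw [can_zero]
      norm_num [Jet.zero]
    · rcases Nat.eq_zero_or_pos b with rfl | hb
      · obtain ⟨a', rfl⟩ : ∃ a', a = a' + 1 := ⟨a - 1, by omega⟩
        rw [can_inf]
        norm_num [Jet.inf]
      · have key : ∀ c d : ℕ, 0 < d → Nat.Coprime c d → (can c d).G ≤ 0 ∧ (can c d).H ≤ 0 →
            (can c d).up.G ≤ 0 ∧ (can c d).up.H ≤ 0 := by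
          intro c d hd hcd hGH
          obtain ⟨p1, q1⟩ := can_pq _ c d le_rfl hcd
          refine ⟨?_, by rw [up_H]; exact hGH.2⟩
          rcases Nat.eq_zero_or_pos c with rfl | hc
          · rw [can_zero]
            norm_num [Jet.zero, Jet.up, Jet.sum, Jet.cross, Jet.Q]
          · have h3 := up_G (can c d) (can_quad _ c d le_rfl)
            have hp : (0 : ℚ) < (can c d).p := by rw [p1]; exact_mod_cast hc
            have hq : (0 : ℚ) < (can c d).q := by rw [q1]; exact_mod_cast hd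
            have h4 : (can c d).up.G * ((can c d).p * (can c d).q) ≤ 0 := by
              rw [h3]
              have e1 : (can c d).G * ((can c d).p * (can c d).q + (can c d).q ^ 2) ≤ 0 :=
                mul_nonpos_of_nonpos_of_nonneg hGH.1 (by positivity)
              have e2 : (can c d).H * ((can c d).p * (can c d).q + (can c d).p ^ 2) ≤ 0 :=
                mul_nonpos_of_nonpos_of_nonneg hGH.2 (by positivity)
              nlinarith [sq_nonneg ((can c d).w + (can c d).p * (can c d).q / 2)]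
            by_contra h5
            push Not at h5
            have h6 : 0 < (can c d).up.G * ((can c d).p * (can c d).q) :=
              mul_pos h5 (mul_pos hp hq)
            linarith
        by_cases h : b ≤ a
        · obtain ⟨c, rfl⟩ : ∃ c, a = c + b := ⟨a - b, by omega⟩
          have h3 : Nat.Coprime c b := by simpa using h2
          rw [can_add c b hb]
          exact key c b hb h3 (ih c b (by omega) h3)
        · obtain ⟨c, rfl⟩ : ∃ c, b = a + c := ⟨b - a, by omega⟩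
          have h3 : Nat.Coprime a c := by simpa using h2
          have h4 := key c a ha h3.symm (ih c a (by omega) h3.symm)
          rw [can_add' a c ha (by omega), ← can_symm _ a c le_rfl (by omega)]
          exact ⟨h4.2, h4.1⟩

/-- `G` and `H` of a rational tangle are not positive -/
theorem rat_GH (R : Arb) (hR : Rat R) : R.jet.G ≤ 0 ∧ R.jet.H ≤ 0 := by
  obtain ⟨a, b, hab, h⟩ := rat_can R hR
  have h1 := can_GH _ a b le_rfl hab
  rcases h with h | h | h | h <;> rw [h] <;> exact h1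

/-- the identity for the difference of the variances, in terms of the invariant `cc` -/
private theorem cc_eq (J : Jet) (hp : J.p ≠ 0) (hq : J.q ≠ 0) (hO : J.Om = -1)
    (hQ : J.Q J.q (-J.p) = J.w ^ 2) :
    J.p ^ 2 * J.H - J.q ^ 2 * J.G = 2 * J.p * J.q ^ 3 * J.cc + J.p ^ 4 / 12 +
      5 * J.p ^ 2 * J.q ^ 2 / 12 - (J.q ^ 2 - 1) ^ 2 / 4 - J.p ^ 2 / 2 := by
  have hw : J.w = (J.p ^ 2 + J.q ^ 2 - 1) / 2 := by
    unfold Jet.Om at hO
    linarith
  simp only [Jet.Q] at hQ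
  have h1 : 2 * J.p * J.q ^ 3 * J.cc = 2 * J.p * (J.p * J.H - J.q * J.F) +
      J.p ^ 2 * J.q ^ 2 / 12 - 2 * J.p ^ 2 * J.w + 2 * J.p ^ 4 / 3 := by
    unfold Jet.cc
    field_simp
    ring
  rw [h1]
  have h2 : J.w ^ 2 = ((J.p ^ 2 + J.q ^ 2 - 1) / 2) ^ 2 := by rw [hw]
  linear_combination -hQ - h2 + 2 * J.p ^ 2 * hw

/-- The difference of the variances of a rational tangle, for `0 < q < p`. -/
private theorem X_bound (J : Jet) (p q : ℚ) (hp : 1 ≤ p) (hq : 1 ≤ q) (hqp : q ≤ p)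
    (h1 : J.p ^ 2 = p ^ 2) (h2 : J.q ^ 2 = q ^ 2) (hO : J.Om = -1)
    (hQ : J.Q J.q (-J.p) = J.w ^ 2) (hcc : |J.cc| ≤ q / 12) :
    |q ^ 2 * J.G - p ^ 2 * J.H| ≤ p ^ 2 * q ^ 2 * ((p ^ 2 / q ^ 2 + 5) / 12 + q ^ 2 / (6 * p)) := by
  have hp0 : J.p ≠ 0 := by
    intro h
    rw [h] at h1
    nlinarith
  have hq0 : J.q ≠ 0 := by
    intro h
    rw [h] at h2
    nlinarith
  have h3 := cc_eq J hp0 hq0 hO hQ
  have h4 : J.p ^ 4 = p ^ 4 := by
    calc J.p ^ 4 = (J.p ^ 2) ^ 2 := by ring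
      _ = (p ^ 2) ^ 2 := by rw [h1]
      _ = p ^ 4 := by ring
  rw [h1, h2, h4] at h3
  have h5 : |2 * J.p * J.q ^ 3 * J.cc| ≤ p * q ^ 4 / 6 := by
    have e1 : |J.p| = p := by
      rw [← sq_eq_sq₀ (abs_nonneg _) (by linarith), sq_abs, h1]
    have e2 : |J.q| = q := by
      rw [← sq_eq_sq₀ (abs_nonneg _) (by linarith), sq_abs, h2]
    rw [abs_mul, abs_mul, abs_mul, abs_pow, e1, e2, abs_two]
    have e3 : 2 * p * q ^ 3 * |J.cc| ≤ 2 * p * q ^ 3 * (q / 12) := by
      apply mul_le_mul_of_nonneg_left hcc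
      positivity
    calc 2 * p * q ^ 3 * |J.cc| ≤ 2 * p * q ^ 3 * (q / 12) := e3
      _ = p * q ^ 4 / 6 := by ring
  have h6 : p ^ 2 * q ^ 2 * ((p ^ 2 / q ^ 2 + 5) / 12 + q ^ 2 / (6 * p)) =
      p ^ 4 / 12 + 5 * p ^ 2 * q ^ 2 / 12 + p * q ^ 4 / 6 := by
    have : p ≠ 0 := by linarith
    have : q ≠ 0 := by linarith
    field_simp
  rw [h6]
  have h7 := abs_le.mp h5
  have h8 : (0 : ℚ) ≤ (q ^ 2 - 1) ^ 2 := sq_nonneg _
  have h9 : q ^ 2 ≤ p ^ 2 := by nlinarith
  have h10 : 1 ≤ q ^ 2 := by nlinarith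
  rw [abs_le]
  constructor
  · nlinarith
  · -- the other side
    have h11 : (q ^ 2 - 1) ^ 2 ≤ p ^ 2 * q ^ 2 := by nlinarith
    have h12 : p ^ 2 ≤ p ^ 2 * q ^ 2 := by nlinarith
    have h13 : p ^ 2 * q ^ 2 ≤ p ^ 4 := by nlinarith
    nlinarith

/-- The difference of the variances of a rational tangle with slope `p / q`, `0 < p ≤ q`. -/
theorem rat_X (R : Arb) (hR : Rat R) (p q : ℕ) (hp : 0 < p) (hpq : p ≤ q)
    (h1 : R.jet.p ^ 2 = (p : ℚ) ^ 2) (h2 : R.jet.q ^ 2 = (q : ℚ) ^ 2) :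
    |(q : ℚ) ^ 2 * R.jet.G - (p : ℚ) ^ 2 * R.jet.H| ≤
      (p : ℚ) ^ 2 * (q : ℚ) ^ 2 * (((q : ℚ) ^ 2 / (p : ℚ) ^ 2 + 5) / 12 +
        (p : ℚ) ^ 2 / (6 * (q : ℚ))) := by
  have hR' : Rat (.rot R) := .rot R hR
  have hp1 : (1 : ℚ) ≤ p := by exact_mod_cast hp
  have hpq' : (p : ℚ) ≤ q := by exact_mod_cast hpq
  have e1 := (jet_pq R).1
  have hpz : R.pq.1 ≠ 0 := by
    intro h
    rw [h] at e1
    rw [e1] at h1
    norm_num at h1
    have : (p : ℚ) = 0 := by
      by_contra h3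
      exact h3 (by simpa using h1.symm)
    linarith
  have hb := (bd_rat (.rot R) hR' (by
    show -R.pq.1 ≠ 0
    exact neg_ne_zero.mpr hpz)).1
  have e2 : |((Arb.rot R).pq.2 : ℚ)| = p := by
    have e3 : (((Arb.rot R).pq.2 : ℤ) : ℚ) = -R.jet.p := by
      rw [e1]
      show ((-R.pq.1 : ℤ) : ℚ) = _
      push_cast
      rfl
    rw [e3, abs_neg, ← sq_eq_sq₀ (abs_nonneg _) (by linarith), sq_abs, h1]
  rw [e2] at hb
  have h3 := X_bound (Arb.rot R).jet q p (by linarith) hp1 hpq' h2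
    (by show (-R.jet.p) ^ 2 = _; rw [neg_sq, h1]) (rat_om _ hR').2 (jet_quad _) hb
  have h4 : (p : ℚ) ^ 2 * (Arb.rot R).jet.G - (q : ℚ) ^ 2 * (Arb.rot R).jet.H =
      -((q : ℚ) ^ 2 * R.jet.G - (p : ℚ) ^ 2 * R.jet.H) := by
    show (p : ℚ) ^ 2 * R.jet.H - (q : ℚ) ^ 2 * R.jet.G = _
    ring
  rw [h4, abs_neg] at h3
  calc _ ≤ _ := h3
    _ = _ := by ring

end Pool.Agent.ALT
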