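import Mathlib
import Pool.Agent.ALT.L3.Defs
import Pool.Agent.ALT.L3.RatX
import Pool.Agent.ALT.L3.Num

/-!
# ALT, block L3: assembly
-/

set_option autoImplicit false

namespace Pool.Agent.ALT

open Pool.Agent.ARB

/-- The exact formula for `E` of a tangle and a rational tangle. `A = ε p x`, `B = -ε q y`. -/
theorem E_formula (J J' S : Jet) (hO : J'.Om = -1) (hS : S.Om = -1) (hp : J.p ≠ 0) (hq : J.q ≠ 0)
    (hs : (J.p = J'.p ∧ J.q = J'.q) ∨ (J.p = -J'.p ∧ J.q = -J'.q))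
    (hQ : J.Q J.q (-J.p) = J.w ^ 2) (hQ' : J'.Q J'.q (-J'.p) = J'.w ^ 2)
    (h1 : (J.sum S).p ^ 2 = 1) (h0 : (J'.sum S).E = 0) (A B u : ℚ)
    (hA : A = (J.sum S).p * (J.p * S.q)) (hB : B = -((J.sum S).p * (J.q * S.p)))
    (hu : u = (J.Om + 1) / 2) :
    (J.sum S).E = u - A * (J.G - J'.G) / J.p ^ 2 + B * (J.H - J'.H) / J.q ^ 2 +
      u * (A / J.p ^ 2 - B / J.q ^ 2) - A * B * (u * (u - 1)) / (J.p ^ 2 * J.q ^ 2) := by
  have hpp : J'.p ^ 2 = J.p ^ 2 := by
    rcases hs with ⟨a, b⟩ | ⟨a, b⟩ <;> rw [a] <;> ring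
  have hqq : J'.q ^ 2 = J.q ^ 2 := by
    rcases hs with ⟨a, b⟩ | ⟨a, b⟩ <;> rw [b] <;> ring
  have hpq : J'.p * J'.q = J.p * J.q := by
    rcases hs with ⟨a, b⟩ | ⟨a, b⟩ <;> rw [a, b] <;> ring
  have hD' : (J'.p * S.q + J'.q * S.p) ^ 2 = 1 := by
    rw [← h1]
    simp only [Jet.sum]
    rcases hs with ⟨a, b⟩ | ⟨a, b⟩ <;> rw [a, b] <;> ring
  have hSp : (J.sum S).p = J.p * S.q + J.q * S.p := rfl
  rw [hSp] at h1 hA hB
  rw [Jet.E_sum] at h0 ⊢
  rw [h1]
  rw [hD'] at h0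
  have hw' : J'.w = (J.p ^ 2 + J.q ^ 2 - 1) / 2 := by
    unfold Jet.Om at hO
    rw [hpp, hqq] at hO
    linarith
  have hw : J.w = u + (J.p ^ 2 + J.q ^ 2 - 1) / 2 := by
    rw [hu]
    unfold Jet.Om
    ring
  have hOm : J.Om = 2 * u - 1 := by
    rw [hu]
    ring
  have hSw : S.w = (S.p ^ 2 + S.q ^ 2 - 1) / 2 := by
    unfold Jet.Om at hS
    linarith
  have hSQ : S.Q J'.q J'.p = S.Q J.q J.p := by
    unfold Jet.Q
    have : 2 * S.F * J'.q * J'.p = 2 * S.F * (J'.p * J'.q) := by ring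
    rw [this, hpp, hqq, hpq]
    ring
  rw [hSQ, hS, hO, hw', hSw] at h0
  rw [hOm, hS, hw, hSw]
  -- the differences
  have hQd : (J.G - J'.G) * J.q ^ 2 - 2 * (J.F - J'.F) * (J.p * J.q) + (J.H - J'.H) * J.p ^ 2 =
      u * (u + J.p ^ 2 + J.q ^ 2 - 1) := by
    simp only [Jet.Q] at hQ hQ'
    have e1 : J'.G * J.q ^ 2 - 2 * J'.F * (J.p * J.q) + J'.H * J.p ^ 2 = J'.w ^ 2 := by
      rw [← hpp, ← hqq, ← hpq]
      linear_combination hQ'
    have e2 : J.w ^ 2 - J'.w ^ 2 = u * (u + J.p ^ 2 + J.q ^ 2 - 1) := by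
      rw [hw, hw']
      ring
    linear_combination hQ - e1 + e2
  simp only [Jet.Q] at h0 ⊢
  set D := J.p * S.q + J.q * S.p with hDdef
  -- x = D A / p, y = -D B / q
  have hx : S.q = D * A / J.p := by
    rw [eq_div_iff hp, hA]
    linear_combination (-(J.p * S.q)) * h1
  have hy : S.p = -(D * B / J.q) := by
    have e : D * B / J.q = -S.p := by
      rw [div_eq_iff hq, hB]
      linear_combination (-(J.q * S.p)) * h1
    rw [e, neg_neg]
  have hAB : A - B = 1 := by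
    rw [hA, hB, ← h1, hDdef]
    ring
  have hB' : B = A - 1 := by linarith
  have key : (2 * (u + (J.p ^ 2 + J.q ^ 2 - 1) / 2) * ((S.p ^ 2 + S.q ^ 2 - 1) / 2) -
      (2 * u - 1) * -1 - (J.G * S.q ^ 2 + 2 * J.F * S.q * S.p + J.H * S.p ^ 2) -
      (S.G * J.q ^ 2 + 2 * S.F * J.q * J.p + S.H * J.p ^ 2) + 1) =
      u * (S.p ^ 2 + S.q ^ 2 + 1) - (J.G - J'.G) * S.q ^ 2 - 2 * (J.F - J'.F) * (S.p * S.q) -
        (J.H - J'.H) * S.p ^ 2 := by
    linear_combination h0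
  rw [key]
  have hF : 2 * (J.F - J'.F) = ((J.G - J'.G) * J.q ^ 2 + (J.H - J'.H) * J.p ^ 2 -
      u * (u + J.p ^ 2 + J.q ^ 2 - 1)) / (J.p * J.q) := by
    rw [eq_div_iff (mul_ne_zero hp hq)]
    linear_combination -hQd
  have hxx : S.q ^ 2 = A ^ 2 / J.p ^ 2 := by
    rw [hx, div_pow, mul_pow, h1, one_mul]
  have hyy : S.p ^ 2 = B ^ 2 / J.q ^ 2 := by
    rw [hy, neg_sq, div_pow, mul_pow, h1, one_mul]
  have hxy : S.p * S.q = -(A * B / (J.p * J.q)) := by
    rw [hx, hy]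
    have : -(D * B / J.q) * (D * A / J.p) = -(D ^ 2 * (A * B) / (J.p * J.q)) := by
      field_simp
    rw [this, h1, one_mul]
  rw [hF, hxx, hyy, hxy, hB']
  field_simp
  ring

/-- (L2), one of the four cases -/
theorem l2_le (n p q : ℕ) (J : Jet) (h : LeafLe n p q J) : 24 ≤ (J.Om + 1) / 2 := by
  have hn := h.six
  have hs := h.size
  have hlt := h.lt
  have hp : (11 : ℚ) ≤ p := by
    have : 11 ≤ p := by omega
    exact_mod_cast this
  have hq : (p : ℚ) + 1 ≤ q := by exact_mod_cast hlt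
  obtain ⟨k, hk⟩ := h.int
  have h23 : 23 < (J.Om + 1) / 2 := by
    rcases le_total (2 * q) (3 * p) with h1 | h1
    · have h2 := h.z1 h1
      nlinarith
    · have h2 := h.z2 h1
      have h3 : (3 : ℚ) * p ≤ 2 * q := by exact_mod_cast h1
      nlinarith
  rw [hk] at h23 ⊢
  have h4 : (23 : ℤ) < k := by exact_mod_cast h23
  have h5 : (24 : ℤ) ≤ k := by omega
  exact_mod_cast h5

/-- the integers `A`, `B` -/
private theorem AB_ge (p q k l : ℤ) (hp : 11 ≤ p) (hq : 12 ≤ q) (h : p * k - q * l = 1) :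
    132 ≤ (p * k) * (q * l) := by
  have hA : p * k = q * l + 1 := by linarith
  rcases lt_trichotomy l 0 with h1 | h1 | h1
  · have h2 : q * l ≤ -12 := by nlinarith
    rw [hA]
    nlinarith
  · rw [h1, mul_zero, zero_add] at hA
    have h3 : p ∣ 1 := ⟨k, hA.symm⟩
    have h4 := Int.le_of_dvd one_pos h3
    omega
  · have h2 : 12 ≤ q * l := by nlinarith
    rw [hA]
    nlinarith

/-- the final estimate -/
private theorem est (E u a p q Vb Va Vb' Va' A B z r : ℚ) (hp : 0 < p) (hq : 0 < q)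
    (hz : 0 < z) (hzu : z * (p * q) = u) (hr : r * p = q) (hu : 24 ≤ u) (hr1 : 1 ≤ r)
    (hAB : A - B = 1) (hAB2 : 132 ≤ A * B)
    (hE : E = u + A * (Vb - Vb') - B * (Va - Va') + u * (A / p ^ 2 - B / q ^ 2) -
      A * B * (u * (u - 1)) / (p ^ 2 * q ^ 2))
    (hVb : Vb ≤ a ^ 2 / 4) (hVa : Va ≤ a ^ 2 / 4) (hVb' : 0 ≤ Vb') (hVa' : 0 ≤ Va')
    (h1 : |Vb - Va| ≤ 2 * a * (z + (r + 1 / r - 1) / 2))
    (h2 : |Vb' - Va'| ≤ (r ^ 2 + 5) / 12 + p / (6 * r))
    (hnum : a ^ 2 / 4 + z * (r + 1 / r) / 2 + 23 / 88 * Nb a p r z ^ 2 / z ^ 2 <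
      23 * (z * p ^ 2 * r)) : E < 24 * u := by
  have hr0 : 0 < r := by linarith
  have e1 : u / p ^ 2 = z * r := by
    rw [← hzu, ← hr]
    field_simp
  have e2 : u / q ^ 2 = z * (1 / r) := by
    rw [← hzu, ← hr]
    field_simp
  have e3 : u * (A / p ^ 2 - B / q ^ 2) = A * (z * r) - B * (z * (1 / r)) := by
    rw [← e1, ← e2]
    ring
  have e4 : A * B * (u * (u - 1)) / (p ^ 2 * q ^ 2) = A * B * (z ^ 2 * (1 - 1 / u)) := by
    have hu0 : u ≠ 0 := by linarith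
    have : z = u / (p * q) := by
      rw [eq_div_iff (by positivity)]
      exact hzu
    rw [this]
    field_simp
  have e5 : z * p ^ 2 * r = u := by
    rw [← hzu, ← hr]
    ring
  rw [e5] at hnum
  rw [e3, e4] at hE
  have h3 : 23 / 24 * z ^ 2 ≤ z ^ 2 * (1 - 1 / u) := by
    have : 1 / u ≤ 1 / 24 := one_div_le_one_div_of_le (by norm_num) hu
    have hz2 : 0 < z ^ 2 := by positivity
    nlinarith
  have h4 : A * B * (23 / 24 * z ^ 2) ≤ A * B * (z ^ 2 * (1 - 1 / u)) :=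
    mul_le_mul_of_nonneg_left h3 (by linarith)
  obtain ⟨m, rfl⟩ : ∃ m, A = m + 1 / 2 := ⟨A - 1 / 2, by ring⟩
  have hB : B = m - 1 / 2 := by linarith
  rw [hB] at hE h4 hAB2
  have h5 : 528 / 529 * m ^ 2 ≤ (m + 1 / 2) * (m - 1 / 2) := by nlinarith
  have h6 : 528 / 529 * m ^ 2 * (23 / 24 * z ^ 2) ≤
      (m + 1 / 2) * (m - 1 / 2) * (23 / 24 * z ^ 2) :=
    mul_le_mul_of_nonneg_right h5 (by positivity)
  have h7 : |Vb - Vb' - (Va - Va') + z * (r - 1 / r)| ≤ Nb a p r z := by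
    have h8 : 0 ≤ z * (r - 1 / r) := by
      apply mul_nonneg hz.le
      have : 1 / r ≤ 1 := by
        rw [div_le_one hr0]
        exact hr1
      linarith
    have a1 := abs_le.mp h1
    have a2 := abs_le.mp h2
    unfold Nb
    rw [abs_le]
    constructor <;> linarith [a1.1, a1.2, a2.1, a2.2]
  have h9 : m * (Vb - Vb' - (Va - Va') + z * (r - 1 / r)) ≤ |m| * Nb a p r z := by
    calc m * (Vb - Vb' - (Va - Va') + z * (r - 1 / r)) ≤
        |m * (Vb - Vb' - (Va - Va') + z * (r - 1 / r))| := le_abs_self _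
      _ = |m| * |Vb - Vb' - (Va - Va') + z * (r - 1 / r)| := abs_mul _ _
      _ ≤ |m| * Nb a p r z := mul_le_mul_of_nonneg_left h7 (abs_nonneg _)
  have h10 : |m| * Nb a p r z - 22 / 23 * z ^ 2 * m ^ 2 ≤ 23 / 88 * Nb a p r z ^ 2 / z ^ 2 := by
    rw [le_div_iff₀ (by positivity), ← sq_abs m]
    have e6 : 23 / 88 * Nb a p r z ^ 2 - (|m| * Nb a p r z - 22 / 23 * z ^ 2 * |m| ^ 2) * z ^ 2 =
        23 / 88 * (Nb a p r z - 44 / 23 * z ^ 2 * |m|) ^ 2 := by ring
    have e7 : 0 ≤ 23 / 88 * (Nb a p r z - 44 / 23 * z ^ 2 * |m|) ^ 2 := by positivity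
    linarith
  have h11 : E = u + m * (Vb - Vb' - (Va - Va') + z * (r - 1 / r)) +
      (Vb - Vb' + (Va - Va')) / 2 + z * (r + 1 / r) / 2 -
        (m + 1 / 2) * (m - 1 / 2) * (z ^ 2 * (1 - 1 / u)) := by
    rw [hE]
    ring
  have h12 : 528 / 529 * m ^ 2 * (23 / 24 * z ^ 2) = 22 / 23 * z ^ 2 * m ^ 2 := by ring
  rw [h11]
  linarith

/-- (L3), one of the four cases -/
theorem l3_le (n p q : ℕ) (J : Jet) (h : LeafLe n p q J) (R : Arb) (hR : Rat R)
    (h1 : (J.sum R.jet).p ^ 2 = 1) : (J.sum R.jet).E < 12 * (J.Om + 1) := by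
  have hn := h.six
  have hsz := h.size
  have hlt := h.lt
  have hp11 : 11 ≤ p := by omega
  have hp : (11 : ℚ) ≤ p := by exact_mod_cast hp11
  have hq : (p : ℚ) + 1 ≤ q := by exact_mod_cast hlt
  have hp0 : (0 : ℚ) < p := by linarith
  have hq0 : (0 : ℚ) < q := by linarith
  have hL2 := l2_le n p q J h
  set u := (J.Om + 1) / 2 with hu
  -- the rational tangle of the same slope
  obtain ⟨R', hR', hpq⟩ := rat_ex_pq _ (p : ℤ) (q : ℤ) le_rfl (Nat.isCoprime_iff_coprime.mpr h.cop)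
  have hs : (J.p = R'.jet.p ∧ J.q = R'.jet.q) ∨ (J.p = -R'.jet.p ∧ J.q = -R'.jet.q) := by
    rw [(jet_pq R').1, (jet_pq R').2, h.jp, h.jq]
    rcases hpq with ⟨a, b⟩ | ⟨a, b⟩
    · left
      rw [a, b]
      exact ⟨by push_cast; rfl, by push_cast; rfl⟩
    · right
      rw [a, b]
      exact ⟨by push_cast; ring, by push_cast; ring⟩
  have hpp : R'.jet.p ^ 2 = (p : ℚ) ^ 2 := by
    rw [← h.jp]
    rcases hs with ⟨a, b⟩ | ⟨a, b⟩ <;> rw [a] <;> ring
  have hqq : R'.jet.q ^ 2 = (q : ℚ) ^ 2 := by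
    rw [← h.jq]
    rcases hs with ⟨a, b⟩ | ⟨a, b⟩ <;> rw [b] <;> ring
  have h0 : (R'.jet.sum R.jet).E = 0 := by
    refine two_rat' R' R hR' hR ?_
    have e1 : ((Arb.sum R' R).pq.1 : ℚ) ^ 2 = 1 := by
      have e2 : ((Arb.sum R' R).pq.1 : ℚ) = (R'.jet.sum R.jet).p := (jet_pq (Arb.sum R' R)).1.symm
      rw [e2, ← h1]
      simp only [Jet.sum]
      rcases hs with ⟨a, b⟩ | ⟨a, b⟩ <;> rw [a, b] <;> ring
    have e3 : (Arb.sum R' R).pq.1 ^ 2 = 1 := by exact_mod_cast e1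
    have e5 : ((Arb.sum R' R).pq.1 - 1) * ((Arb.sum R' R).pq.1 + 1) = 0 := by linear_combination e3
    rcases mul_eq_zero.mp e5 with e4 | e4
    · rw [sub_eq_zero.mp e4]
      rfl
    · rw [eq_neg_of_add_eq_zero_left e4]
      rfl
  -- the integers `A`, `B`
  have hSq : R.jet.q = (R.pq.2 : ℚ) := (jet_pq R).2
  have hSp : R.jet.p = (R.pq.1 : ℚ) := (jet_pq R).1
  have hD : (J.sum R.jet).p = (((p : ℤ) * R.pq.2 + (q : ℤ) * R.pq.1 : ℤ) : ℚ) := by
    show J.p * R.jet.q + J.q * R.jet.p = _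
    rw [h.jp, h.jq, hSq, hSp]
    push_cast
    rfl
  set D : ℤ := (p : ℤ) * R.pq.2 + (q : ℤ) * R.pq.1 with hDdef
  have hD2 : D ^ 2 = 1 := by
    rw [hD] at h1
    exact_mod_cast h1
  have hkl : (p : ℤ) * (D * R.pq.2) - (q : ℤ) * (-(D * R.pq.1)) = 1 := by
    rw [← hD2, hDdef]
    ring
  have hAB2 := AB_ge p q (D * R.pq.2) (-(D * R.pq.1)) (by exact_mod_cast hp11) (by omega) hkl
  set A : ℚ := (J.sum R.jet).p * (J.p * R.jet.q) with hA
  set B : ℚ := -((J.sum R.jet).p * (J.q * R.jet.p)) with hB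
  have hA' : A = (((p : ℤ) * (D * R.pq.2) : ℤ) : ℚ) := by
    rw [hA, hD, h.jp, hSq]
    push_cast
    ring
  have hB' : B = (((q : ℤ) * (-(D * R.pq.1)) : ℤ) : ℚ) := by
    rw [hB, hD, h.jq, hSp]
    push_cast
    ring
  have hAB : A - B = 1 := by
    rw [hA', hB', ← Int.cast_sub, hkl]
    norm_num
  have hABq : 132 ≤ A * B := by
    rw [hA', hB', ← Int.cast_mul]
    exact_mod_cast hAB2
  have hE := E_formula J R'.jet R.jet (rat_om R' hR').2 (rat_om R hR).2
    (by rw [h.jp]; exact hp0.ne') (by rw [h.jq]; exact hq0.ne') hs h.quad (jet_quad R') h1 h0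
    A B u rfl rfl rfl
  rw [h.jp, h.jq] at hE
  -- the final estimate
  have hGH := rat_GH R' hR'
  have hX := rat_X R' hR' p q (by omega) hlt.le hpp hqq
  have hr1 : (1 : ℚ) ≤ q / p := by
    rw [le_div_iff₀ hp0]
    linarith
  have hu0 : 0 < u := by linarith
  have hz0 : 0 < u / (p * q : ℚ) := by positivity
  have hnum := num_ineq ((n : ℚ) - 2) p (q / p) (u / (p * q)) (by
      have : (6 : ℚ) ≤ n := by exact_mod_cast hn
      linarith) (by
      have : (3 : ℚ) * n ≤ p + 7 := by exact_mod_cast hsz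
      linarith) (by
      rw [div_mul_cancel₀ _ hp0.ne']
      exact hq) (by
      have : (4 : ℚ) * q ≤ n * p := by exact_mod_cast h.size4
      rw [sub_add_cancel, mul_div_assoc', div_le_iff₀ hp0]
      exact this) (by
      intro h2
      rw [div_le_iff₀ hp0] at h2
      have h3 : 2 * q ≤ 3 * p := by
        have : (2 : ℚ) * q ≤ 3 * p := by linarith
        exact_mod_cast this
      rw [le_div_iff₀ (by positivity)]
      linarith [h.z1 h3]) (by
      intro h2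
      rw [le_div_iff₀ hp0] at h2
      have h3 : 3 * p ≤ 2 * q := by
        have : (3 : ℚ) * p ≤ 2 * q := by linarith
        exact_mod_cast this
      rw [le_div_iff₀ (by positivity)]
      have h4 := h.z2 h3
      have h5 : (3 / 8 - 5 / (16 * ((q : ℚ) / p))) * (p * q) = 3 / 8 * (p * q) - 5 / 16 * p ^ 2 := by
        field_simp
      rw [h5]
      linarith) (by
      intro h2
      rw [le_div_iff₀ hp0] at h2
      have h3 : 16 * p ≤ q := by exact_mod_cast h2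
      rcases h.z3 h3 with h4 | h4
      · left
        have h5 : (7 : ℚ) * n * q ≤ 16 * p ^ 2 := by exact_mod_cast h4
        rw [sub_add_cancel, mul_div_assoc', div_le_iff₀ hp0]
        linarith
      · right
        rw [le_div_iff₀ (by positivity)]
        have h5 : ((q : ℚ) / p / 8 - 1 / 2) * (p * q) = q ^ 2 / 8 - p * q / 2 := by
          field_simp
        rw [h5]
        exact h4)
  have hfin := est (J.sum R.jet).E u ((n : ℚ) - 2) p q (-J.G / p ^ 2) (-J.H / q ^ 2)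
    (-R'.jet.G / p ^ 2) (-R'.jet.H / q ^ 2) A B (u / (p * q)) (q / p) hp0 hq0 hz0
    (div_mul_cancel₀ _ (by positivity)) (div_mul_cancel₀ _ hp0.ne') hL2 hr1 hAB hABq
    (by rw [hE]; ring)
    (by
      rw [div_le_iff₀ (by positivity)]
      linarith [h.vG])
    (by
      rw [div_le_iff₀ (by positivity)]
      linarith [h.vH])
    (by
      apply div_nonneg _ (by positivity)
      linarith [hGH.1])
    (by
      apply div_nonneg _ (by positivity)
      linarith [hGH.2])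
    (by
      have e1 : -J.G / (p : ℚ) ^ 2 - -J.H / (q : ℚ) ^ 2 =
          -((q ^ 2 * J.G - p ^ 2 * J.H) / (p ^ 2 * q ^ 2)) := by
        field_simp
        ring
      rw [e1, abs_neg, abs_div, abs_of_pos (show (0 : ℚ) < p ^ 2 * q ^ 2 by positivity),
        div_le_iff₀ (by positivity)]
      refine h.s0.trans ?_
      have hw : J.w = u + ((p : ℚ) ^ 2 + q ^ 2 - 1) / 2 := by
        rw [hu]
        unfold Jet.Om
        rw [h.jp, h.jq]
        ring
      have e2 : 2 * ((n : ℚ) - 2) * (u / (p * q) + (q / p + 1 / (q / p) - 1) / 2) *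
          (p ^ 2 * q ^ 2) = 2 * p * q * (J.w + 1 / 2 - p * q / 2) * (n - 2) := by
        rw [hw]
        field_simp
        ring
      rw [e2]
      have e3 : (0 : ℚ) ≤ n - 2 := by
        have : (6 : ℚ) ≤ n := by exact_mod_cast hn
        linarith
      have e4 : (0 : ℚ) ≤ 2 * p * q := by positivity
      apply mul_le_mul_of_nonneg_right _ e3
      apply mul_le_mul_of_nonneg_left _ e4
      linarith)
    (by
      have e1 : -R'.jet.G / (p : ℚ) ^ 2 - -R'.jet.H / (q : ℚ) ^ 2 =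
          -((q ^ 2 * R'.jet.G - p ^ 2 * R'.jet.H) / (p ^ 2 * q ^ 2)) := by
        field_simp
        ring
      rw [e1, abs_neg, abs_div, abs_of_pos (show (0 : ℚ) < p ^ 2 * q ^ 2 by positivity),
        div_le_iff₀ (by positivity)]
      refine hX.trans (le_of_eq ?_)
      have hp00 := hp0.ne'
      have hq00 := hq0.ne'
      field_simp)
    hnum
  have h24 : 24 * u = 12 * (J.Om + 1) := by
    rw [hu]
    ring
  rw [← h24]
  exact hfin

end Pool.Agent.ALT
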