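import Mathlib
import Pool.Agent.ALT.L3.Asm

/-!
# ALT, block L3: the two theorems about leaves
-/

set_option autoImplicit false

namespace Pool.Agent.ALT

open Pool.Agent.ARB

theorem E_mir (J : Jet) : J.mir.E = J.E := by
  simp only [Jet.mir, Jet.E]

theorem E_neg (J : Jet) : J.neg.E = J.E := by
  simp only [Jet.neg, Jet.E]
  ring

theorem Om_mir (J : Jet) : J.mir.Om = J.Om := by
  simp only [Jet.mir, Jet.Om]
  ring

theorem Om_neg (J : Jet) : J.neg.Om = J.Om := by
  simp only [Jet.neg, Jet.Om]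
  ring

theorem Om_dia (J : Jet) : J.dia.Om = J.Om := by
  simp only [Jet.dia, Jet.Om]
  ring

/-- mirror images of rational tangles -/
theorem rat_mir (R : Arb) (hR : Rat R) :
    ∃ R' : Arb, Rat R' ∧ (R'.jet = R.jet.mir ∨ R'.jet = R.jet.mir.neg) := by
  induction hR with
  | zero =>
    refine ⟨.zero, Rat.zero, Or.inl ?_⟩
    simp only [Arb.jet]
    ext <;> norm_num [Jet.zero, Jet.mir]
  | add T p _ ih =>
    obtain ⟨R', h1, h2⟩ := ih
    refine ⟨.sum R' (.cross (!p)), ARB.Rat.add R' (!p) h1, ?_⟩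
    rcases h2 with h2 | h2
    · left
      simp only [Arb.jet]
      rw [h2, ← Jet.mir_cross, Jet.mir_sum]
    · right
      simp only [Arb.jet]
      rw [h2, ← Jet.mir_cross, Jet.neg_sum, Jet.mir_sum]
  | rot T _ ih =>
    obtain ⟨R', h1, h2⟩ := ih
    refine ⟨.rot R', Rat.rot R' h1, ?_⟩
    rcases h2 with h2 | h2
    · right
      simp only [Arb.jet]
      rw [h2]
      ext <;> simp [Jet.mir, Jet.rot, Jet.neg]
    · left
      simp only [Arb.jet]
      rw [h2]
      ext <;> simp [Jet.mir, Jet.rot, Jet.neg]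

/-- mirror image on both sides -/
theorem mir_both (K : Jet) (R R' : Arb) (h : R'.jet = R.jet.mir ∨ R'.jet = R.jet.mir.neg) :
    (K.mir.sum R.jet).E = (K.sum R'.jet).E ∧
      (K.mir.sum R.jet).p ^ 2 = (K.sum R'.jet).p ^ 2 := by
  have h1 : K.mir.sum R.jet = (K.sum R.jet.mir).mir := by
    rw [← Jet.mir_sum, Jet.mir_mir]
  have h2 : (K.sum R.jet.mir.neg) = (K.sum R.jet.mir).neg := by
    rw [Jet.sum_comm, Jet.neg_sum, Jet.sum_comm]
  rw [h1, E_mir]
  rcases h with h | h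
  · rw [h]
    refine ⟨rfl, ?_⟩
    simp only [Jet.mir]
    ring
  · rw [h, h2, E_neg]
    refine ⟨rfl, ?_⟩
    simp only [Jet.mir, Jet.neg]

/-- rotation on both sides -/
theorem rot_both (K : Jet) (R : Arb) :
    (K.rot.neg.sum R.jet).E = (K.sum (Arb.rot R).jet).E ∧
      (K.rot.neg.sum R.jet).p ^ 2 = (K.sum (Arb.rot R).jet).p ^ 2 := by
  rw [Jet.neg_sum, E_neg, Jet.E_rot]
  refine ⟨rfl, ?_⟩
  simp only [Jet.neg, Jet.sum, Jet.rot, Arb.jet]
  ring

theorem all_L2 : St_L2 := by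
  intro n J h
  obtain ⟨p, q, h | h | h | h⟩ := h
  · exact l2_le n p q J h
  · have h1 := l2_le n p q J.dia h
    rwa [Om_dia] at h1
  · have h1 := l2_le n p q J.mir h
    rwa [Om_mir] at h1
  · have h1 := l2_le n p q J.rot h
    rwa [Jet.Om_rot] at h1

theorem all_L3 : St_L3 := by
  intro n J h R hR h1
  obtain ⟨p, q, h | h | h | h⟩ := h
  · exact l3_le n p q J h R hR h1
  · -- `J = K.rot.neg.mir` with `K = J.dia`
    have hJ : J = (J.dia.rot.neg).mir := by
      ext <;> simp [Jet.mir, Jet.rot, Jet.neg, Jet.dia]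
    obtain ⟨R', hR', h2⟩ := rat_mir R hR
    obtain ⟨e1, e2⟩ := mir_both (J.dia.rot.neg) R R' h2
    obtain ⟨e3, e4⟩ := rot_both J.dia R'
    rw [← hJ] at e1 e2
    have h3 := l3_le n p q J.dia h (.rot R') (Rat.rot R' hR') (by rw [← e4, ← e2]; exact h1)
    rw [← e3, ← e1, Om_dia] at h3
    exact h3
  · have hJ : J = J.mir.mir := (Jet.mir_mir J).symm
    obtain ⟨R', hR', h2⟩ := rat_mir R hR
    obtain ⟨e1, e2⟩ := mir_both J.mir R R' h2
    rw [← hJ] at e1 e2
    have h3 := l3_le n p q J.mir h R' hR' (by rw [← e2]; exact h1)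
    rw [← e1, Om_mir] at h3
    exact h3
  · have hJ : J = J.rot.rot.neg := by
      ext <;> simp [Jet.rot, Jet.neg]
    obtain ⟨e3, e4⟩ := rot_both J.rot R
    rw [← hJ] at e3 e4
    have h3 := l3_le n p q J.rot h (.rot R) (Rat.rot R hR) (by rw [← e4]; exact h1)
    rw [← e3, Jet.Om_rot] at h3
    exact h3

end Pool.Agent.ALT
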